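import Pool.Agent.Lib.SN15.Main

namespace Pool.Agent.Results.MP_50cd9e_lc.Literal

open Pool.Agent.Lib.SN15

/-- As languages of bit strings, the upper bound problem for the tensor spectral norm is complete
for the complements of the languages reducible to the existential theory of the reals, and the
exceed problem is complete for the languages reducible to it. -/
theorem result : Complete AllR BOUND ∧ Complete ExR EXCEED :=
  ⟨bound_complete, exceed_complete⟩

end Pool.Agent.Results.MP_50cd9e_lc.Literal
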