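import Pool.Agent.Lib.NUC.Memb

namespace Pool.Agent.Results.MP_50cd9e_lc.NuclearComplete

open Pool.Agent.Lib.MP_50cd9e_lc Pool.Agent.Lib.NUC

/-- Testing an upper bound on the nuclear norm (the dual of the spectral norm) of a rational
3-tensor reduces to the existential theory of the reals, and every problem that reduces to the
existential theory of the reals reduces to it in polynomial time. -/
theorem result : InExistsR encInst (fun I : Inst => nucNorm I ≤ (I.σ : ℝ)) ∧
    ∀ (α : Type) (ea : α → List Bool) (A : α → Prop), InExistsR ea A →
      Red ea A encInst (fun I : Inst => nucNorm I ≤ (I.σ : ℝ)) :=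
  ⟨nuc_mem, fun _ ea A h => nuc_hard ea A h⟩

end Pool.Agent.Results.MP_50cd9e_lc.NuclearComplete
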